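import Mathlib
import Pool.Agent.Helper53.SupportDet

/-!
# Reconstructibility of functions determined by content and singletons

For nonempty sets `A` and `B`, the functions `A ^ n → B` determined by content and singletons are
reconstructible for all sufficiently large `n` if and only if `A` is finite or `|B| = 1`; and the
same holds for weak reconstructibility.
-/

namespace Pool.Agent.Results.MP_75c0e8_co.ReconstructibilityDichotomy

universe u v

section Defs

variable {A : Type u} {B : Type v}

/-- Two functions of arity `n` are similar if they agree up to a permutation of arguments. -/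
def Similar {n : ℕ} (f g : (Fin n → A) → B) : Prop :=
  ∃ τ : Equiv.Perm (Fin n), ∀ a : Fin n → A, f a = g (a ∘ τ)

variable (A B) in
/-- Similarity is an equivalence relation. -/
def similarSetoid (n : ℕ) : Setoid ((Fin n → A) → B) where
  r := Similar
  iseqv :=
    { refl := fun _ => ⟨1, fun _ => rfl⟩
      symm := by
        rintro f g ⟨τ, h⟩
        refine ⟨τ⁻¹, fun a => ?_⟩
        rw [h]
        congr 1
        ext i
        simp
      trans := by
        rintro f g k ⟨τ, h⟩ ⟨σ, h'⟩
        refine ⟨τ * σ, fun a => ?_⟩
        rw [h, h']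
        rfl }

/-- The identification minor `f_I`, `I = {i < j}`, of a function `f` of arity `n + 1`: it maps
`(a_1, …, a_n)` to `f (a_1, …, a_{j-1}, a_i, a_j, …, a_n)` (the value `a_i` is inserted at the
position `j`). -/
def minor {n : ℕ} (f : (Fin (n + 1) → A) → B) (i j : Fin (n + 1)) (hij : i < j) :
    (Fin n → A) → B :=
  fun a => f (j.insertNth (α := fun _ => A)
    (a (i.castLT (lt_of_lt_of_le hij (Nat.le_of_lt_succ j.2)))) a)

/-- The deck of `f`: the multiset of the similarity classes of all identification minors of `f`. -/
def deck {n : ℕ} (f : (Fin (n + 1) → A) → B) : Multiset (Quotient (similarSetoid A B n)) :=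
  (Finset.univ : Finset {p : Fin (n + 1) × Fin (n + 1) // p.1 < p.2}).val.map
    (fun p => Quotient.mk (similarSetoid A B n) (minor f p.1.1 p.1.2 p.2))

/-- `f` is reconstructible: every function with the same deck is similar to `f`. -/
def Reconstructible {n : ℕ} (f : (Fin (n + 1) → A) → B) : Prop :=
  ∀ g : (Fin (n + 1) → A) → B, deck g = deck f → Similar g f

/-- The content of a tuple: the multiset of its entries. -/
def content {n : ℕ} (a : Fin n → A) : Multiset A := Finset.univ.val.map a

open Classical in
/-- The tuple of the singletons of `a` (the entries that occur exactly once in `a`), in the order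
of occurrence. -/
noncomputable def sing {n : ℕ} (a : Fin n → A) : List A :=
  (List.ofFn a).filter (fun x => decide (Multiset.count x (content a) = 1))

/-- `f` is determined by content and singletons. -/
def DeterminedByContentAndSingletons {n : ℕ} (f : (Fin n → A) → B) : Prop :=
  ∀ a b : Fin n → A, content a = content b → sing a = sing b → f a = f b

end Defs

section Proof

open Pool.Agent.Helper53

variable {A : Type u} {B : Type v}

lemma succAbove_castLT_eq {n : ℕ} {i j : Fin (n + 1)} (h : i < j) (h' : i.val < n) :
    j.succAbove (i.castLT h') = i := by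
  rw [Fin.succAbove_of_castSucc_lt]
  · rfl
  · exact h

lemma content_eq {n : ℕ} (a : Fin n → A) : content a = (List.ofFn a : Multiset A) := by
  unfold content
  exact Fin.univ_val_map a

open Classical in
lemma sing_eq {n : ℕ} (a : Fin n → A) : sing a = sl (List.ofFn a) := by
  unfold sing sl
  rw [content_eq]
  apply List.filter_congr
  intro x _
  rw [Multiset.coe_count]

/-- The tuple of a list. -/
noncomputable def tup [Inhabited A] (m : ℕ) (w : List A) : Fin m → A := fun i => w.getD i default

lemma ofFn_tup [Inhabited A] {m : ℕ} {w : List A} (hw : w.length = m) :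
    List.ofFn (tup m w) = w := by
  apply List.ext_getElem
  · simp [hw]
  · intro i h1 h2
    rw [List.getElem_ofFn]
    unfold tup
    rw [List.getD_eq_getElem _ _ h2]

lemma dcs_of [Inhabited A] {m : ℕ} {f : (Fin m → A) → B}
    (hf : DeterminedByContentAndSingletons f) : DCS m (fun w => f (tup m w)) := by
  intro w w' hw hp hs
  have hw' : w'.length = m := hp.length_eq ▸ hw
  apply hf
  · rw [content_eq, content_eq, ofFn_tup hw, ofFn_tup hw']
    exact Multiset.coe_eq_coe.2 hp
  · rw [sing_eq, sing_eq, ofFn_tup hw, ofFn_tup hw']
    exact hs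

lemma tup_ofFn [Inhabited A] {m : ℕ} (a : Fin m → A) : tup m (List.ofFn a) = a := by
  ext i
  unfold tup
  rw [List.getD_eq_getElem _ _ (by simp)]
  simp

open Classical in
/-- Translation of the equality of decks. -/
lemma data_of_deck [Inhabited A] {n : ℕ} {f g : (Fin (n + 1) → A) → B}
    (hf : DeterminedByContentAndSingletons f) (hd : deck g = deck f) (i j : ℕ) (hij : i < j)
    (hj : j < n + 1) : ∃ (l : ℕ) (ℓ : List ℕ), (j :: l :: ℓ).Perm (List.range (n + 1)) ∧
      ∀ a : ℕ → A, a i = a j → (g (fun t : Fin (n + 1) => a t)) =
        f (tup (n + 1) (a l :: a l :: ℓ.map a)) := by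
  set I : Fin (n + 1) := ⟨i, by omega⟩ with hI
  set J : Fin (n + 1) := ⟨j, hj⟩ with hJ
  have hIJ : I < J := hij
  have hmem : Quotient.mk (similarSetoid A B n) (minor g I J hIJ) ∈ deck f := by
    rw [← hd]
    unfold deck
    rw [Multiset.mem_map]
    exact ⟨⟨(I, J), hIJ⟩, Finset.mem_univ _, rfl⟩
  unfold deck at hmem
  rw [Multiset.mem_map] at hmem
  obtain ⟨⟨⟨i', j'⟩, hij'⟩, _, hq⟩ := hmem
  simp only at hij' hq
  obtain ⟨τ, hτ⟩ : Similar (minor g I J hIJ) (minor f i' j' hij') := Quotient.exact hq.symm
  set i'' : Fin n := i'.castLT (lt_of_lt_of_le hij' (Nat.le_of_lt_succ j'.2)) with hi''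
  set σ : Fin n → Fin (n + 1) := fun t => J.succAbove (τ t) with hσ
  have hσinj : Function.Injective σ := fun s t h => τ.injective (Fin.succAbove_right_injective h)
  have hσJ : ∀ t, σ t ≠ J := fun t => Fin.succAbove_ne J (τ t)
  set δ : Fin (n + 1) → Fin n := j'.insertNth (α := fun _ => Fin n) i'' id with hδ
  have hδj' : δ j' = i'' := by rw [hδ, Fin.insertNth_apply_same]
  have hδs : ∀ t, δ (j'.succAbove t) = t := by
    intro t
    rw [hδ, Fin.insertNth_apply_succAbove]
    rfl
  have hsi' : j'.succAbove i'' = i' := by
    rw [hi'']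
    exact succAbove_castLT_eq hij' _
  have hδi' : δ i' = i'' := by
    conv_lhs => rw [← hsi']
    exact hδs i''
  set θ : Fin (n + 1) → Fin (n + 1) := fun x => σ (δ x) with hθ
  have hθinj : ∀ x y, x ≠ j' → y ≠ j' → θ x = θ y → x = y := by
    intro x y hx hy hxy
    obtain ⟨s, rfl⟩ := Fin.exists_succAbove_eq hx
    obtain ⟨t, rfl⟩ := Fin.exists_succAbove_eq hy
    have h1 := hσinj hxy
    rw [hδs, hδs] at h1
    rw [h1]
  have hθij : θ i' = θ j' := by simp only [hθ, hδi', hδj']
  have hne' : i' ≠ j' := ne_of_lt hij'
  set L₀ : List (Fin (n + 1)) := (List.finRange (n + 1)).filter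
    (fun x => decide (x ≠ i' ∧ x ≠ j')) with hL₀
  have hL₀mem : ∀ x, x ∈ L₀ ↔ x ≠ i' ∧ x ≠ j' := by
    intro x
    rw [hL₀, List.mem_filter]
    simp
  have hL₀nd : L₀.Nodup := (List.nodup_finRange _).filter _
  have hL₁nd : (i' :: j' :: L₀).Nodup := by
    rw [List.nodup_cons, List.nodup_cons, List.mem_cons]
    refine ⟨?_, ?_, hL₀nd⟩
    · rintro (h | h)
      · exact hne' h
      · exact ((hL₀mem i').1 h).1 rfl
    · intro h
      exact ((hL₀mem j').1 h).2 rfl
  have hL₁perm : (i' :: j' :: L₀).Perm (List.finRange (n + 1)) := by
    rw [List.perm_ext_iff_of_nodup hL₁nd (List.nodup_finRange _)]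
    intro x
    simp only [List.mem_cons, hL₀mem, List.mem_finRange, iff_true]
    tauto
  have hlen : L₀.length + 2 = n + 1 := by
    have := hL₁perm.length_eq
    simpa using this
  refine ⟨(θ i').val, L₀.map (fun x => (θ x).val), ?_, ?_⟩
  · -- the list of positions is a permutation of the range
    have hnd : (j :: (θ i').val :: L₀.map (fun x => (θ x).val)).Nodup := by
      rw [List.nodup_cons]
      constructor
      · intro h
        rw [← List.map_cons (f := fun x => (θ x).val), List.mem_map] at h
        obtain ⟨x, _, hx⟩ := h
        apply hσJ (δ x)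
        apply Fin.ext
        exact hx
      · rw [← List.map_cons (f := fun x => (θ x).val)]
        apply List.Nodup.map_on
        · intro x hx y hy hxy
          have hne : ∀ z ∈ i' :: L₀, z ≠ j' := by
            intro z hz
            rw [List.mem_cons] at hz
            rcases hz with rfl | hz
            · exact hne'
            · exact ((hL₀mem z).1 hz).2
          exact hθinj x y (hne x hx) (hne y hy) (Fin.ext hxy)
        · rw [List.nodup_cons]
          exact ⟨fun h => ((hL₀mem i').1 h).1 rfl, hL₀nd⟩
    have hsub : List.Subperm (j :: (θ i').val :: L₀.map (fun x => (θ x).val))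
        (List.range (n + 1)) := by
      apply List.subperm_of_subset hnd
      intro x hx
      rw [List.mem_range]
      simp only [List.mem_cons, List.mem_map] at hx
      rcases hx with rfl | rfl | ⟨y, _, rfl⟩
      · exact hj
      · exact (θ i').2
      · exact (θ y).2
    apply hsub.perm_of_length_le
    simp only [List.length_range, List.length_cons, List.length_map]
    omega
  · intro a haij
    set a' : Fin (n + 1) → A := fun t => a t with ha'
    have h1 : g a' = minor g I J hIJ (a' ∘ J.succAbove) := by
      unfold minor
      congr 1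
      have h2 : (a' ∘ J.succAbove) (I.castLT (lt_of_lt_of_le hIJ (Nat.le_of_lt_succ J.2)))
          = a' J := by
        rw [Function.comp_apply, succAbove_castLT_eq hIJ]
        exact haij
      rw [h2]
      funext t
      by_cases ht : t = J
      · rw [ht, Fin.insertNth_apply_same]
      · obtain ⟨s, rfl⟩ := Fin.exists_succAbove_eq ht
        rw [Fin.insertNth_apply_succAbove]
        rfl
    have h2 : (a' ∘ J.succAbove) ∘ τ = a' ∘ σ := rfl
    have h3 : g a' = f (a' ∘ θ) := by
      rw [h1, hτ, h2]
      unfold minor
      congr 1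
      funext t
      by_cases ht : t = j'
      · rw [ht, Fin.insertNth_apply_same, Function.comp_apply, Function.comp_apply]
        simp only [hθ, hδj']
        rfl
      · obtain ⟨s, rfl⟩ := Fin.exists_succAbove_eq ht
        rw [Fin.insertNth_apply_succAbove]
        simp only [Function.comp_apply, hθ, hδs]
    rw [h3]
    have hF := dcs_of hf
    have h4 : f (a' ∘ θ) = f (tup (n + 1) ((List.finRange (n + 1)).map (a' ∘ θ))) := by
      rw [← List.ofFn_eq_map, tup_ofFn]
    rw [h4]
    have h5 : a (θ i').val :: a (θ i').val :: (L₀.map (fun x => (θ x).val)).map a =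
        (i' :: j' :: L₀).map (a' ∘ θ) := by
      rw [List.map_cons, List.map_cons, List.map_map, Function.comp_apply, Function.comp_apply,
        ← hθij]
      rfl
    rw [h5]
    have hp : ((List.finRange (n + 1)).map (a' ∘ θ)).Perm ((i' :: j' :: L₀).map (a' ∘ θ)) :=
      hL₁perm.symm.map _
    apply hF _ _ (by simp) hp
    -- the single letters
    set w := (List.finRange (n + 1)).map (a' ∘ θ) with hw
    have hcount : ∀ x, x = i' ∨ x = j' → w.count ((a' ∘ θ) x) ≠ 1 := by
      have h6 : 2 ≤ w.count ((a' ∘ θ) i') := by
        rw [hp.count_eq, List.map_cons, List.map_cons]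
        have h7 : (a' ∘ θ) j' = (a' ∘ θ) i' := by
          rw [Function.comp_apply, Function.comp_apply, hθij]
        rw [h7, List.count_cons_self, List.count_cons_self]
        omega
      intro x hx
      rcases hx with rfl | rfl
      · omega
      · rw [Function.comp_apply, ← hθij]
        rw [Function.comp_apply] at h6
        omega
    rw [sl_eq_filter hp, List.filter_map]
    have h7 : sl w = ((List.finRange (n + 1)).filter
        ((fun x => decide (w.count x = 1)) ∘ (a' ∘ θ))).map (a' ∘ θ) := by
      unfold sl
      rw [hw, List.filter_map]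
    rw [h7]
    congr 1
    rw [List.filter_cons_of_neg, List.filter_cons_of_neg, hL₀, List.filter_filter]
    · apply List.filter_congr
      intro x _
      by_cases hx : x = i' ∨ x = j'
      · have := hcount x hx
        have h8 : ((fun x => decide (w.count x = 1)) ∘ (a' ∘ θ)) x = false := by
          simpa using this
        rw [h8]
        simp
      · rw [not_or] at hx
        simp [hx]
    · have := hcount j' (Or.inr rfl)
      simpa using this
    · have := hcount i' (Or.inl rfl)
      simpa using this

/-- Finite alphabets: all functions of sufficiently large arity determined by content and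
singletons are reconstructible. -/
theorem finite_case (A : Type u) [Finite A] [Nonempty A] : ∃ N : ℕ, ∀ n : ℕ, N ≤ n →
    ∀ (B : Type v) (f : (Fin (n + 1) → A) → B), DeterminedByContentAndSingletons f →
      Reconstructible f := by
  classical
  have : Inhabited A := Classical.inhabited_of_nonempty inferInstance
  have := Fintype.ofFinite A
  obtain ⟨N, hN⟩ := all_cases.{u, v} A
  refine ⟨N, ?_⟩
  intro n hn B f hf g hd
  obtain ⟨ℓ, hℓ, hval⟩ := hN (n + 1) (by omega) B (fun w => f (tup (n + 1) w))
    (fun a => g (fun t : Fin (n + 1) => a t)) (dcs_of hf)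
    (fun i j hij hj => data_of_deck hf hd i j hij hj)
  have hlen : ℓ.length = n + 1 := by rw [hℓ.length_eq, List.length_range]
  have hnd : ℓ.Nodup := hℓ.nodup_iff.2 List.nodup_range
  have hlt : ∀ t : Fin (n + 1), ℓ[t.val]'(by rw [hlen]; exact t.2) < n + 1 := fun t =>
    List.mem_range.1 (hℓ.mem_iff.1 (List.getElem_mem _))
  set ρ : Fin (n + 1) → Fin (n + 1) := fun t => ⟨ℓ[t.val]'(by rw [hlen]; exact t.2), hlt t⟩ with hρ
  have hρinj : Function.Injective ρ := by
    intro s t hst
    have h1 := congrArg Fin.val hst
    simp only [hρ] at h1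
    apply Fin.ext
    exact (hnd.getElem_inj_iff).1 h1
  have hρbij : Function.Bijective ρ := Finite.injective_iff_bijective.1 hρinj
  refine ⟨Equiv.ofBijective ρ hρbij, ?_⟩
  intro a
  set a' : ℕ → A := fun x => if h : x < n + 1 then a ⟨x, h⟩ else default with ha'
  have h1 := hval a'
  have h2 : (fun t : Fin (n + 1) => a' t) = a := by
    funext t
    simp only [ha', t.2, dif_pos]
  simp only [h2] at h1
  rw [h1]
  congr 1
  funext t
  unfold tup
  rw [List.getD_eq_getElem _ _ (by rw [List.length_map, hlen]; exact t.2), List.getElem_map]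
  simp only [ha', hlt t, dif_pos]
  rfl

/-- Infinite alphabets: two functions with equal decks that are not similar. -/
theorem infinite_case (A : Type u) [Infinite A] (B : Type v) [Nontrivial B] (n : ℕ) :
    ∃ f g : (Fin (n + 1) → A) → B, DeterminedByContentAndSingletons f ∧
      DeterminedByContentAndSingletons g ∧ deck f = deck g ∧ ¬ Similar f g := by
  classical
  obtain ⟨b₀, b₁, hb⟩ := exists_pair_ne B
  refine ⟨fun _ => b₀, fun a => if Function.Injective a then b₁ else b₀, fun _ _ _ _ => rfl,
    ?_, ?_, ?_⟩
  · intro a b hab _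
    have key : ∀ c : Fin (n + 1) → A, Function.Injective c ↔ (content c).Nodup := by
      intro c
      unfold content
      constructor
      · intro hc
        exact (Finset.univ.nodup).map hc
      · intro hc x y hxy
        exact Multiset.inj_on_of_nodup_map hc x (Finset.mem_univ x) y (Finset.mem_univ y) hxy
    have : Function.Injective a ↔ Function.Injective b := by
      rw [key, key, hab]
    simp only [this]
  · unfold deck
    apply Multiset.map_congr rfl
    rintro ⟨⟨i, j⟩, hij⟩ _
    congr 1
    funext a
    simp only at hij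
    change b₀ = if Function.Injective (j.insertNth (α := fun _ => A)
      (a (i.castLT (lt_of_lt_of_le hij (Nat.le_of_lt_succ j.2)))) a) then b₁ else b₀
    rw [if_neg]
    intro hinj
    have h1 : i = j := by
      apply hinj
      rw [Fin.insertNth_apply_same]
      have h2 := Fin.insertNth_apply_succAbove (α := fun _ => A) j
        (a (i.castLT (lt_of_lt_of_le hij (Nat.le_of_lt_succ j.2)))) a
        (i.castLT (lt_of_lt_of_le hij (Nat.le_of_lt_succ j.2)))
      have h3 : j.succAbove (i.castLT (lt_of_lt_of_le hij (Nat.le_of_lt_succ j.2))) = i :=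
        succAbove_castLT_eq hij _
      exact (congrArg (j.insertNth (α := fun _ => A)
        (a (i.castLT (lt_of_lt_of_le hij (Nat.le_of_lt_succ j.2)))) a) h3).symm.trans h2
    exact absurd h1 (ne_of_lt hij)
  · rintro ⟨τ, hτ⟩
    set a : Fin (n + 1) ↪ A := Fin.valEmbedding.trans (Infinite.natEmbedding A) with ha
    have h1 := hτ a
    change b₀ = (if Function.Injective (a ∘ τ) then b₁ else b₀) at h1
    rw [if_pos (a.injective.comp τ.injective)] at h1
    exact hb h1

end Proof

/-- **Main theorem.** Let `A` and `B` be nonempty sets. The following are equivalent: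
`A` is finite or `|B| = 1`; there is `N` such that every function `A ^ (n + 1) → B`, `n ≥ N`,
determined by content and singletons is reconstructible; there is `N` such that for every `n ≥ N`
the class of functions `A ^ (n + 1) → B` determined by content and singletons is weakly
reconstructible. -/
theorem result (A : Type u) (B : Type v) [Nonempty A] [Nonempty B] :
    ((∃ N : ℕ, ∀ n ≥ N, ∀ f : (Fin (n + 1) → A) → B, DeterminedByContentAndSingletons f →
        Reconstructible f) ↔ (Finite A ∨ Subsingleton B)) ∧
    ((∃ N : ℕ, ∀ n ≥ N, ∀ f g : (Fin (n + 1) → A) → B, DeterminedByContentAndSingletons f →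
        DeterminedByContentAndSingletons g → deck f = deck g → Similar f g) ↔
      (Finite A ∨ Subsingleton B)) := by
  have pos : (Finite A ∨ Subsingleton B) → ∃ N : ℕ, ∀ n ≥ N, ∀ f : (Fin (n + 1) → A) → B,
      DeterminedByContentAndSingletons f → Reconstructible f := by
    rintro (h | h)
    · obtain ⟨N, hN⟩ := finite_case.{u, v} A
      exact ⟨N, fun n hn f hf => hN n hn B f hf⟩
    · exact ⟨0, fun n _ f _ g _ => ⟨1, fun a => Subsingleton.elim _ _⟩⟩
  have neg : (∃ N : ℕ, ∀ n ≥ N, ∀ f g : (Fin (n + 1) → A) → B,
      DeterminedByContentAndSingletons f → DeterminedByContentAndSingletons g →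
      deck f = deck g → Similar f g) → (Finite A ∨ Subsingleton B) := by
    rintro ⟨N, hN⟩
    by_contra hcon
    rw [not_or, not_finite_iff_infinite, not_subsingleton_iff_nontrivial] at hcon
    obtain ⟨hA, hB⟩ := hcon
    obtain ⟨f, g, hf, hg, hd, hs⟩ := infinite_case A B N
    exact hs (hN N (le_refl N) f g hf hg hd)
  have mid : (∃ N : ℕ, ∀ n ≥ N, ∀ f : (Fin (n + 1) → A) → B,
      DeterminedByContentAndSingletons f → Reconstructible f) →
      (∃ N : ℕ, ∀ n ≥ N, ∀ f g : (Fin (n + 1) → A) → B, DeterminedByContentAndSingletons f →
        DeterminedByContentAndSingletons g → deck f = deck g → Similar f g) := by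
    rintro ⟨N, hN⟩
    exact ⟨N, fun n hn f g _ hg hd => hN n hn g hg f hd⟩
  exact ⟨⟨fun h => neg (mid h), pos⟩, ⟨neg, fun h => mid (pos h)⟩⟩

end Pool.Agent.Results.MP_75c0e8_co.ReconstructibilityDichotomy
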